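import Pool.Agent.R132.CCZ

set_option autoImplicit false

/-! Soundness of the kernel search for MP_abc6c1. -/

namespace Pool.Agent.R784.AP

open Pool.Agent.R132.CCZ

theorem outAll_nil (x : ℕ) : outAll x [] = true := rfl

theorem outAll_cons (x w : ℕ) (W : List ℕ) :
    outAll x (w :: W) = (out (x ^^^ w) && outAll x W) := by
  change (Bool.rec (motive := fun _ => Bool) false (outAll x W) (out (x ^^^ w)) : Bool) = _
  cases out (x ^^^ w) <;> rfl

theorem outAll_iff (x : ℕ) (W : List ℕ) : outAll x W = true ↔ ∀ w ∈ W, out (x ^^^ w) = true := by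
  induction W with
  | nil => simp [outAll_nil]
  | cons w W ih => rw [outAll_cons, Bool.and_eq_true, ih]; simp

theorem fil_nil (l : ℕ) (W : List ℕ) : fil l W [] = [] := rfl

theorem fil_cons (l : ℕ) (W : List ℕ) (x : ℕ) (A : List ℕ) :
    fil l W (x :: A) = if (x &&& l = 0 ∧ outAll x W = true) then x :: fil l W A else fil l W A := by
  change (Bool.rec (motive := fun _ => List ℕ) (fil l W A) (Bool.rec (motive := fun _ => List ℕ)
    (fil l W A) (x :: fil l W A) (outAll x W)) (Nat.beq (x &&& l) 0) : List ℕ) = _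
  by_cases h1 : x &&& l = 0
  · have : Nat.beq (x &&& l) 0 = true := by rw [Nat.beq_eq]; exact h1
    rw [this]
    cases h2 : outAll x W <;> simp [h1]
  · have : Nat.beq (x &&& l) 0 = false := by
      rw [← Bool.not_eq_true, Nat.beq_eq]; exact h1
    rw [this]
    simp [h1]

theorem fil_eq (l : ℕ) (W A : List ℕ) :
    fil l W A = A.filter fun x => decide (x &&& l = 0 ∧ outAll x W = true) := by
  induction A with
  | nil => rfl
  | cons x A ih => rw [fil_cons, List.filter_cons, ih]; simp

theorem mp_eq (e : ℕ) (W : List ℕ) : mp e W = W.map (· ^^^ e) := by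
  induction W with
  | nil => rfl
  | cons x W ih =>
    change (x ^^^ e) :: mp e W = _
    rw [ih]; rfl

theorem loop_cons (R : List ℕ → List ℕ → Bool) (W : List ℕ) (lim e : ℕ) (t : List ℕ) :
    loop R W lim (e :: t) = (if lim ≤ e then true else
      (R (mp e W ++ W) (fil (lead e) (mp e W) t) && loop R W lim t)) := by
  change (Bool.rec (motive := fun _ => Bool) (Bool.rec (motive := fun _ => Bool) false
    (loop R W lim t) (R (mp e W ++ W) (fil (lead e) (mp e W) t))) true (Nat.ble lim e) : Bool) = _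
  by_cases h : lim ≤ e
  · rw [Nat.ble_eq_true_of_le h]; simp [h]
  · have : Nat.ble lim e = false := by
      rw [← Bool.not_eq_true, Nat.ble_eq]; exact h
    rw [this, if_neg h]
    cases R (mp e W ++ W) (fil (lead e) (mp e W) t) <;> rfl

theorem loop_sound (R : List ℕ → List ℕ → Bool) (W : List ℕ) (lim : ℕ) (A : List ℕ)
    (h : loop R W lim A = true) (hA : A.Pairwise (· < ·)) (e : ℕ) (he : e ∈ A) (hl : e < lim) :
    ∃ t : List ℕ, R (mp e W ++ W) (fil (lead e) (mp e W) t) = true ∧ (∀ x ∈ A, e < x → x ∈ t) ∧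
      t.Pairwise (· < ·) ∧ ∀ x ∈ t, x ∈ A := by
  induction A with
  | nil => simp at he
  | cons a A ih =>
    rw [List.pairwise_cons] at hA
    rw [loop_cons] at h
    rcases List.mem_cons.1 he with rfl | he'
    · rw [if_neg (by omega), Bool.and_eq_true] at h
      refine ⟨A, h.1, fun x hx hlt => ?_, hA.2, fun x hx => List.mem_cons_of_mem _ hx⟩
      rcases List.mem_cons.1 hx with rfl | hx
      · omega
      · exact hx
    · have hlt := hA.1 e he'
      rw [if_neg (by omega), Bool.and_eq_true] at h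
      obtain ⟨t, h1, h2, h3, h4⟩ := ih h.2 hA.2 he'
      refine ⟨t, h1, fun x hx hlt' => ?_, h3, fun x hx => List.mem_cons_of_mem _ (h4 x hx)⟩
      rcases List.mem_cons.1 hx with rfl | hx
      · omega
      · exact h2 x hx hlt'

/-- the leading bit -/
theorem lead_spec {e : ℕ} (h0 : 0 < e) (h1 : e < 1024) : ∃ k, lead e = 2 ^ k ∧ 2 ^ k ≤ e ∧
    e < 2 ^ (k + 1) := by
  unfold lead
  have hb : ∀ m n : ℕ, Nat.ble m n = decide (m ≤ n) := by
    intro m n
    by_cases h : m ≤ n
    · rw [Nat.ble_eq_true_of_le h]; simp [h]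
    · have : Nat.ble m n = false := by
        rw [← Bool.not_eq_true, Nat.ble_eq]; exact h
      rw [this]; simp [h]
  simp only [hb, Bool.cond_decide]
  split_ifs with h9 h8 h7 h6 h5 h4 h3 h2 h2'
  · exact ⟨9, rfl, by omega, by omega⟩
  · exact ⟨8, rfl, by omega, by omega⟩
  · exact ⟨7, rfl, by omega, by omega⟩
  · exact ⟨6, rfl, by omega, by omega⟩
  · exact ⟨5, rfl, by omega, by omega⟩
  · exact ⟨4, rfl, by omega, by omega⟩
  · exact ⟨3, rfl, by omega, by omega⟩
  · exact ⟨2, rfl, by omega, by omega⟩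
  · exact ⟨1, rfl, by omega, by omega⟩
  · exact ⟨0, rfl, by omega, by omega⟩

theorem and_lead {e x : ℕ} (h0 : 0 < e) (h1 : e < 1024) (hx : x ≤ x ^^^ e) : x &&& lead e = 0 := by
  obtain ⟨k, hk, hle, hlt⟩ := lead_spec h0 h1
  rw [hk]
  by_contra hne
  have hb : x.testBit k = true := by
    by_contra hf
    rw [Bool.not_eq_true] at hf
    apply hne
    apply Nat.eq_of_testBit_eq
    intro i
    rw [Nat.testBit_and, Nat.testBit_two_pow, Nat.zero_testBit]
    by_cases hi : k = i
    · subst hi; simp [hf]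
    · simp [hi]
  have he : e.testBit k = true := by
    rw [Nat.testBit_eq_decide_div_mod_eq]
    have : e / 2 ^ k = 1 := by
      rw [Nat.div_eq_iff (by positivity)]
      rw [pow_succ] at hlt
      constructor <;> omega
    rw [this]
    rfl
  have hlt' : x ^^^ e < x := by
    apply Nat.lt_of_testBit k
    · rw [Nat.testBit_xor, hb, he]; rfl
    · exact hb
    · intro j hj
      rw [Nat.testBit_xor]
      have : e.testBit j = false := by
        apply Nat.testBit_lt_two_pow
        exact lt_of_lt_of_le hlt (Nat.pow_le_pow_right (by norm_num) hj)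
      rw [this, Bool.xor_false]
  omega

/-- A linear set. -/
structure Lin (S : Finset ℕ) : Prop where
  zero : 0 ∈ S
  xor : ∀ x ∈ S, ∀ y ∈ S, x ^^^ y ∈ S

theorem xor_div (x y j : ℕ) : (x ^^^ y) / 2 ^ j = x / 2 ^ j ^^^ y / 2 ^ j := by
  apply Nat.eq_of_testBit_eq
  intro i
  rw [Nat.testBit_xor, Nat.testBit_div_two_pow, Nat.testBit_div_two_pow, Nat.testBit_div_two_pow,
    Nat.testBit_xor]

/-- few small elements bound the size -/
theorem card_le {E : Finset ℕ} (hE : Lin E) (hlt : ∀ x ∈ E, x < 1024) {j : ℕ} (hj : j ≤ 10) :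
    E.card ≤ (E.filter (· < 2 ^ j)).card * 2 ^ (10 - j) := by
  have h1 : E.card ≤ (E.filter (· < 2 ^ j)).card * (E.image (· / 2 ^ j)).card := by
    apply Finset.card_le_mul_card_image
    intro a ha
    rw [Finset.mem_image] at ha
    obtain ⟨x0, hx0, rfl⟩ := ha
    apply Finset.card_le_card_of_injOn (fun x => x ^^^ x0)
    · intro x hx
      rw [Finset.mem_coe, Finset.mem_filter] at hx
      rw [Finset.mem_coe, Finset.mem_filter]
      refine ⟨hE.xor _ hx.1 _ hx0, ?_⟩
      have h2 : (x ^^^ x0) / 2 ^ j = 0 := by rw [xor_div, hx.2, Nat.xor_self]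
      rcases Nat.div_eq_zero_iff.1 h2 with h | h
      · exact absurd h (by positivity)
      · exact h
    · intro a _ b _ hab
      exact Nat.xor_left_injective hab
  refine h1.trans (Nat.mul_le_mul_left _ ?_)
  have h3 : E.image (· / 2 ^ j) ⊆ Finset.range (2 ^ (10 - j)) := by
    intro y hy
    rw [Finset.mem_image] at hy
    obtain ⟨x, hx, rfl⟩ := hy
    rw [Finset.mem_range, Nat.div_lt_iff_lt_mul (by positivity), ← pow_add]
    have : 10 - j + j = 10 := by omega
    rw [this]
    exact hlt x hx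
  exact (Finset.card_le_card h3).trans (by simp)

theorem sound {E : Finset ℕ} (hE : Lin E) (hlt : ∀ x ∈ E, x < 1024) (hcard : E.card = 32)
    {v : ℕ} (hout : ∀ x ∈ E, out (v ^^^ x) = true) (r : ℕ) :
    ∀ (S : Finset ℕ) (W A : List ℕ), S ⊆ E → Lin S → S.card * 2 ^ (r + 1) = 32 →
      (∀ w ∈ W, w ^^^ v ∈ S) → A.Pairwise (· < ·) →
      (∀ x ∈ E, x ∉ S → (∀ s ∈ S, x ≤ x ^^^ s) → x ∈ A) → ref r W A = true → False := by
  induction r with
  | zero =>
    intro S W A hSE hS hc hW hA hinv href
    have hlt2 : S.card < E.card := by omega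
    have hne : (E \ S).Nonempty := by
      rw [← Finset.card_pos, Finset.card_sdiff_of_subset hSE]; omega
    have hm := Finset.min'_mem (E \ S) hne
    rw [Finset.mem_sdiff] at hm
    have hx : (E \ S).min' hne ∈ A := by
      refine hinv _ hm.1 hm.2 fun s hs => Finset.min'_le _ _ ?_
      rw [Finset.mem_sdiff]
      refine ⟨hE.xor _ hm.1 _ (hSE hs), fun h => hm.2 ?_⟩
      have := hS.xor _ h _ hs
      rwa [Nat.xor_assoc, Nat.xor_self, Nat.xor_zero] at this
    cases A with
    | nil => simp at hx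
    | cons a A => exact absurd href (by change ¬ (false = true); simp)
  | succ r ih =>
    intro S W A hSE hS hc hW hA hinv href
    have hr : r ≤ 3 := by
      by_contra h
      have h2 : 2 ^ 6 ≤ 2 ^ (r + 1 + 1) := Nat.pow_le_pow_right (by norm_num) (by omega)
      have h3 : 0 < S.card := Finset.card_pos.2 ⟨0, hS.zero⟩
      nlinarith
    have hlt2 : S.card < E.card := by
      have h2 : 2 ^ 1 ≤ 2 ^ (r + 1 + 1) := Nat.pow_le_pow_right (by norm_num) (by omega)
      have h3 : 0 < S.card := Finset.card_pos.2 ⟨0, hS.zero⟩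
      nlinarith
    have hne : (E \ S).Nonempty := by
      rw [← Finset.card_pos, Finset.card_sdiff_of_subset hSE]; omega
    set e := (E \ S).min' hne with he
    have hm := Finset.min'_mem (E \ S) hne
    rw [← he, Finset.mem_sdiff] at hm
    have hmin : ∀ x ∈ E, x ∉ S → e ≤ x := fun x hx hxS =>
      Finset.min'_le _ _ (Finset.mem_sdiff.2 ⟨hx, hxS⟩)
    have hnotS : ∀ s ∈ S, e ^^^ s ∉ S := by
      intro s hs h
      have := hS.xor _ h _ hs
      rw [Nat.xor_assoc, Nat.xor_self, Nat.xor_zero] at this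
      exact hm.2 this
    have heA : e ∈ A := hinv e hm.1 hm.2 fun s hs =>
      hmin _ (hE.xor _ hm.1 _ (hSE hs)) (hnotS s hs)
    have hlim : e < 2 ^ (9 - r) := by
      by_contra hge
      rw [not_lt] at hge
      have h1 : E.filter (· < 2 ^ (9 - r)) ⊆ S := by
        intro x hx
        rw [Finset.mem_filter] at hx
        by_contra hxS
        have := hmin x hx.1 hxS
        omega
      have h2 := card_le hE hlt (j := 9 - r) (by omega)
      have h3 := Finset.card_le_card h1
      have h4 : 10 - (9 - r) = r + 1 := by omega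
      rw [h4, hcard] at h2
      have h5 : S.card * 2 ^ (r + 1 + 1) = 2 * (S.card * 2 ^ (r + 1)) := by rw [pow_succ]; ring
      have h6 : (E.filter (· < 2 ^ (9 - r))).card * 2 ^ (r + 1) ≤ S.card * 2 ^ (r + 1) :=
        Nat.mul_le_mul_right _ h3
      omega
    have href' : loop (ref r) W (2 ^ (9 - r)) A = true := href
    obtain ⟨t, ht1, ht2, ht3, ht4⟩ := loop_sound _ _ _ _ href' hA e heA hlim
    have he0 : 0 < e := Nat.pos_of_ne_zero fun h => hm.2 (h ▸ hS.zero)
    have he1 : e < 1024 := hlt e hm.1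
    refine ih (S ∪ S.image (· ^^^ e)) _ _ ?_ ?_ ?_ ?_ ?_ ?_ ht1
    · intro x hx
      rcases Finset.mem_union.1 hx with hx | hx
      · exact hSE hx
      · obtain ⟨s, hs, rfl⟩ := Finset.mem_image.1 hx
        exact hE.xor _ (hSE hs) _ hm.1
    · refine ⟨Finset.mem_union_left _ hS.zero, ?_⟩
      intro x hx y hy
      rcases Finset.mem_union.1 hx with hx | hx <;> rcases Finset.mem_union.1 hy with hy | hy
      · exact Finset.mem_union_left _ (hS.xor _ hx _ hy)
      · obtain ⟨s, hs, rfl⟩ := Finset.mem_image.1 hy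
        refine Finset.mem_union_right _ (Finset.mem_image.2 ⟨x ^^^ s, hS.xor _ hx _ hs, ?_⟩)
        exact Nat.xor_assoc _ _ _
      · obtain ⟨s, hs, rfl⟩ := Finset.mem_image.1 hx
        refine Finset.mem_union_right _ (Finset.mem_image.2 ⟨s ^^^ y, hS.xor _ hs _ hy, ?_⟩)
        rw [Nat.xor_assoc, Nat.xor_comm y e, Nat.xor_assoc]
      · obtain ⟨s, hs, rfl⟩ := Finset.mem_image.1 hx
        obtain ⟨s', hs', rfl⟩ := Finset.mem_image.1 hy
        refine Finset.mem_union_left _ ?_
        have : s ^^^ e ^^^ (s' ^^^ e) = s ^^^ s' := by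
          rw [Nat.xor_comm s' e, Nat.xor_assoc, ← Nat.xor_assoc e e s', Nat.xor_self, Nat.zero_xor]
        change s ^^^ e ^^^ (s' ^^^ e) ∈ S
        rw [this]
        exact hS.xor _ hs _ hs'
    · have hdisj : Disjoint S (S.image (· ^^^ e)) := by
        rw [Finset.disjoint_left]
        intro x hx hx'
        obtain ⟨s, hs, rfl⟩ := Finset.mem_image.1 hx'
        refine hnotS s hs ?_
        rw [Nat.xor_comm]
        exact hx
      rw [Finset.card_union_of_disjoint hdisj, Finset.card_image_of_injective _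
        (fun a b hab => Nat.xor_left_injective hab)]
      rw [pow_succ] at hc
      rw [← hc]
      ring
    · intro w hw
      rw [mp_eq] at hw
      rcases List.mem_append.1 hw with hw | hw
      · obtain ⟨w', hw', rfl⟩ := List.mem_map.1 hw
        refine Finset.mem_union_right _ (Finset.mem_image.2 ⟨w' ^^^ v, hW w' hw', ?_⟩)
        rw [Nat.xor_assoc, Nat.xor_comm v e, Nat.xor_assoc]
      · exact Finset.mem_union_left _ (hW w hw)
    · rw [fil_eq]
      exact ht3.filter _
    · intro x hxE hxS hx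
      rw [Finset.mem_union, not_or] at hxS
      have hxA : x ∈ A := hinv x hxE hxS.1 fun s hs => hx s (Finset.mem_union_left _ hs)
      have heS' : e ∈ S ∪ S.image (· ^^^ e) :=
        Finset.mem_union_right _ (Finset.mem_image.2 ⟨0, hS.zero, Nat.zero_xor _⟩)
      have hne : x ≠ e := by
        rintro rfl
        exact hxS.2 (Finset.mem_image.2 ⟨0, hS.zero, Nat.zero_xor _⟩)
      have hlt' : e < x := lt_of_le_of_ne (hmin x hxE hxS.1) hne.symm
      rw [fil_eq, List.mem_filter, decide_eq_true_iff]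
      refine ⟨ht2 x hxA hlt', and_lead he0 he1 (hx e heS'), ?_⟩
      rw [outAll_iff]
      intro w hw
      rw [mp_eq] at hw
      obtain ⟨w', hw', rfl⟩ := List.mem_map.1 hw
      have h1 : x ^^^ (w' ^^^ e) = v ^^^ (x ^^^ e ^^^ (w' ^^^ v)) := by
        apply Nat.eq_of_testBit_eq
        intro i
        simp only [Nat.testBit_xor]
        cases x.testBit i <;> cases w'.testBit i <;> cases e.testBit i <;> cases v.testBit i <;> rfl
      change out (x ^^^ (w' ^^^ e)) = true
      rw [h1]
      exact hout _ (hE.xor _ (hE.xor _ hxE _ hm.1) _ (hSE (hW w' hw')))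

/-- the property of having a flat outside of `D` -/
def P (v : ℕ) : Prop := ∃ E : Finset ℕ, Lin E ∧ (∀ x ∈ E, x < 1024) ∧ E.card = 32 ∧
  ∀ x ∈ E, out (v ^^^ x) = true

theorem start {v : ℕ} (h : ref 4 [v] (fil 0 [v] ((List.range 1024).drop 1)) = true) : ¬ P v := by
  rintro ⟨E, hE, hlt, hcard, hout⟩
  refine sound hE hlt hcard hout 4 {0} [v] _ ?_ ?_ ?_ ?_ ?_ ?_ h
  · simpa using hE.zero
  · refine ⟨by simp, ?_⟩
    intro x hx y hy
    rw [Finset.mem_singleton] at hx hy ⊢
    rw [hx, hy]; rfl
  · simp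
  · intro w hw
    rw [List.mem_singleton] at hw
    rw [hw, Nat.xor_self]; simp
  · rw [fil_eq]
    exact ((List.pairwise_lt_range).drop).filter _
  · intro x hxE hxS _
    rw [fil_eq, List.mem_filter, decide_eq_true_iff, Nat.and_zero]
    refine ⟨?_, rfl, ?_⟩
    · have h1 := hlt x hxE
      have h2 : x ≠ 0 := by simpa using hxS
      have h3 : (List.range 1024).drop 1 = (List.range 1023).map Nat.succ := by
        rw [show 1024 = 1023 + 1 from rfl, List.range_succ_eq_map]
        rfl
      rw [h3, List.mem_map]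
      exact ⟨x - 1, List.mem_range.2 (by omega), by omega⟩
    · rw [outAll_iff]
      intro w hw
      rw [List.mem_singleton] at hw
      rw [hw, Nat.xor_comm]
      exact hout x hxE

theorem not_P_rep : ¬ P 1 ∧ ¬ P 35 ∧ ¬ P 38 ∧ ¬ P 39 :=
  ⟨start search4.1, start search4.2.1, start search4.2.2.1, start search4.2.2.2⟩

end Pool.Agent.R784.AP
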