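import Pool.Agent.R784.AP.Sound

set_option autoImplicit false

/-! Symmetries of the difference set for MP_abc6c1. -/

namespace Pool.Agent.R784.AP

open Pool.Agent.R132.CCZ

/-- the xor-linear map with given values at the powers of two -/
def linL (c : List ℕ) (l : List ℕ) (x : ℕ) : ℕ :=
  l.foldr (fun i acc => (if x.testBit i then c.getD i 0 else 0) ^^^ acc) 0

def lin (c : List ℕ) (x : ℕ) : ℕ := linL c [0, 1, 2, 3, 4, 5, 6, 7, 8, 9] x

theorem linL_xor (c l : List ℕ) (x y : ℕ) : linL c l (x ^^^ y) = linL c l x ^^^ linL c l y := by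
  induction l with
  | nil => simp [linL]
  | cons i l ih =>
    have h1 : ∀ z, linL c (i :: l) z = (if z.testBit i then c.getD i 0 else 0) ^^^ linL c l z :=
      fun z => rfl
    rw [h1, h1, h1, ih, Nat.testBit_xor]
    have h2 : (if (x.testBit i ^^ y.testBit i) = true then c.getD i 0 else 0) =
        (if x.testBit i = true then c.getD i 0 else 0) ^^^
          (if y.testBit i = true then c.getD i 0 else 0) := by
      cases x.testBit i <;> cases y.testBit i <;> simp
    rw [h2]
    generalize (if x.testBit i = true then c.getD i 0 else 0) = a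
    generalize (if y.testBit i = true then c.getD i 0 else 0) = b
    generalize linL c l x = p
    generalize linL c l y = q
    apply Nat.eq_of_testBit_eq
    intro j
    simp only [Nat.testBit_xor]
    cases a.testBit j <;> cases b.testBit j <;> cases p.testBit j <;> cases q.testBit j <;> rfl

theorem lin_xor (c : List ℕ) (x y : ℕ) : lin c (x ^^^ y) = lin c x ^^^ lin c y := linL_xor c _ x y

theorem lin_zero (c : List ℕ) : lin c 0 = 0 := by
  have h := lin_xor c 0 0
  rw [Nat.xor_self, Nat.xor_self] at h
  exact h

/-- a symmetry -/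
def Good (c : List ℕ) : Prop := ∀ x < 1024, lin c x < 1024 ∧ out (lin c x) = out x ∧
  (lin c x = 0 → x = 0)

theorem P_lin {c : List ℕ} (hc : Good c) {v : ℕ} (hv : v < 1024) (h : P v) : P (lin c v) := by
  obtain ⟨E, hE, hlt, hcard, hout⟩ := h
  have hinj : Set.InjOn (lin c) (E : Set ℕ) := by
    intro x hx y hy hxy
    have h1 := hE.xor x hx y hy
    have h2 : lin c (x ^^^ y) = 0 := by rw [lin_xor, hxy, Nat.xor_self]
    exact Nat.xor_eq_zero_iff.1 ((hc _ (hlt _ h1)).2.2 h2)
  refine ⟨E.image (lin c), ⟨?_, ?_⟩, ?_, ?_, ?_⟩
  · exact Finset.mem_image.2 ⟨0, hE.zero, lin_zero c⟩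
  · intro x hx y hy
    obtain ⟨x', hx', rfl⟩ := Finset.mem_image.1 hx
    obtain ⟨y', hy', rfl⟩ := Finset.mem_image.1 hy
    exact Finset.mem_image.2 ⟨x' ^^^ y', hE.xor _ hx' _ hy', lin_xor c _ _⟩
  · intro x hx
    obtain ⟨x', hx', rfl⟩ := Finset.mem_image.1 hx
    exact (hc _ (hlt _ hx')).1
  · rw [Finset.card_image_of_injOn hinj, hcard]
  · intro x hx
    obtain ⟨x', hx', rfl⟩ := Finset.mem_image.1 hx
    have h3 : v ^^^ x' < 1024 := Nat.xor_lt_two_pow (n := 10) hv (hlt _ hx')
    rw [← lin_xor, (hc _ h3).2.1]
    exact hout _ hx'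

def cM : List ℕ := [2, 4, 8, 16, 5, 576, 32, 64, 128, 256]
def cF : List ℕ := [1, 4, 16, 10, 13, 32, 128, 512, 320, 416]
def cS : List ℕ := [32, 64, 128, 256, 512, 1, 2, 4, 8, 16]

instance (c : List ℕ) : Decidable (Good c) := by unfold Good; infer_instance

set_option maxRecDepth 100000 in
theorem goodM : Good cM := by decide +kernel

set_option maxRecDepth 100000 in
theorem goodF : Good cF := by decide +kernel

set_option maxRecDepth 100000 in
theorem goodS : Good cS := by decide +kernel

/-- which symmetry to apply -/
def T : ℕ := 257654430038195961688560828534086791457236774508273971758637821983836799985810159094136122970048973505096857293145428756731171954385322008564635645416640414693815004125851277980156583133140061897670631515665085179439398158647660466366037216622586373263962424416906591126949087552775722319030329378548922733679565107409609507506639267659611769566527268244503701092681232789870925446074409624225756033566116416074828906237733554104428582156071691121704946962245048985539126496841560447808856166023113386142683023490883148957499603001246545917399905542255982561618400452992394419477575876499442217869572316247005221408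

def gen (v : ℕ) : List ℕ :=
  if (T >>> (2 * v)) &&& 3 = 0 then cM else if (T >>> (2 * v)) &&& 3 = 1 then cF else cS

def step (v : ℕ) : ℕ := lin (gen v) v

theorem gen_good (v : ℕ) : Good (gen v) := by
  unfold gen
  split_ifs
  · exact goodM
  · exact goodF
  · exact goodS

theorem P_step {v : ℕ} (hv : v < 1024) (h : P v) : P (step v) ∧ step v < 1024 :=
  ⟨P_lin (gen_good v) hv h, ((gen_good v) v hv).1⟩

def red : ℕ → ℕ → Bool
  | 0, v => v == 1 || v == 35 || v == 38 || v == 39
  | n + 1, v => (v == 1 || v == 35 || v == 38 || v == 39) || red n (step v)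

theorem red_sound (n v : ℕ) (hv : v < 1024) (h : P v) : red n v = false := by
  have h0 : (v == 1 || v == 35 || v == 38 || v == 39) = false := by
    obtain ⟨h1, h2, h3, h4⟩ := not_P_rep
    rw [← Bool.not_eq_true]
    intro h5
    simp only [Bool.or_eq_true, beq_iff_eq] at h5
    rcases h5 with ((rfl | rfl) | rfl) | rfl
    · exact h1 h
    · exact h2 h
    · exact h3 h
    · exact h4 h
  induction n generalizing v with
  | zero => exact h0
  | succ n ih =>
    have h1 := P_step hv h
    rw [red, h0, Bool.false_or]
    refine ih _ h1.2 h1.1 ?_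
    obtain ⟨g1, g2, g3, g4⟩ := not_P_rep
    rw [← Bool.not_eq_true]
    intro h5
    simp only [Bool.or_eq_true, beq_iff_eq] at h5
    rcases h5 with ((h5 | h5) | h5) | h5
    · exact g1 (h5 ▸ h1.1)
    · exact g2 (h5 ▸ h1.1)
    · exact g3 (h5 ▸ h1.1)
    · exact g4 (h5 ▸ h1.1)

set_option maxRecDepth 100000 in
theorem all_red : ∀ v < 1024, out v = true → red 8 v = true := by decide +kernel

/-- There is no flat outside of `D`. -/
theorem not_P {v : ℕ} (hv : v < 1024) : ¬ P v := by
  intro h
  have h1 : out v = true := by
    obtain ⟨E, hE, _, _, hout⟩ := h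
    have := hout 0 hE.zero
    rwa [Nat.xor_zero] at this
  have h2 := all_red v hv h1
  rw [red_sound 8 v hv h] at h2
  exact absurd h2 (by simp)

end Pool.Agent.R784.AP
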